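import Pool.Agent.H80.Cm.Main

/-!
# Communication lower bound for all-pairs shortest paths

The model.  There are `p` processors with local memories of `M` registers and a shared memory.
A processor may apply an arbitrary nondecreasing function to its whole local memory, for free; only
the transfers between the local memories and the shared memory are counted.  A program may also
test monotone properties of the contents of all registers, for free; `m` bounds the number of
leaves of the program tree.  Programs may be randomised, and they only have to approximate each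
distance within a factor `α`, with probability `1 / 2 + δ`.

If the processor `i` makes `c i` transfers then the expected value of
`∑ i, c i * (9 * √(min M (c i)) + 28 * log n)` is at least `δ ^ (5 / 2) * n ^ 3 / (400 * m ^ (3 / 2))`
for some graph with weights `1` and `W`.

For `p = 1` this says that a fast memory with `M` registers forces `Ω(n ^ 3 / (√M + log n))`
transfers, and for large `M` it says that one of `p` processors must make
`Ω(min (n ^ 2 / p ^ (2 / 3)) (n ^ 3 / (p * log n)))` transfers.
-/

namespace Pool.Agent.Results.MP_885423_lc.Communication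

open Pool.Agent.H80.Cm

theorem result {n p M m W : ℕ} {δ α : ℝ} (hM : 1 ≤ M) (hδ : 0 < δ) (hδ2 : δ ≤ 1 / 2)
    (hn : 10000 * (m : ℝ) * (Real.logb 2 n + 2) ^ 2 ≤ δ ^ 3 * n ^ 2)
    (hα : 1 ≤ α) (hW : 2 * α < W) {Ω : Type} [Fintype Ω] (pr : Ω → ℝ)
    (P : Ω → Prog p M ((Fin n × Fin n) ⊕ ℕ) (Fin n × Fin n)) (hS : SolvesAPSP W α δ pr P)
    (hm : ∀ ω, (P ω).leaves ≤ m) :
    ∃ w : Fin n → Fin n → ℕ, (∀ u v, w u v = 1 ∨ w u v = W) ∧
      δ ^ (5 / 2 : ℝ) * (n : ℝ) ^ 3 ≤ 400 * (m : ℝ) ^ (3 / 2 : ℝ) *
        ∑ ω, pr ω * ∑ i, ((P ω).transfers (start p M w) i : ℝ) *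
          (9 * √(min (M : ℝ) ((P ω).transfers (start p M w) i)) + 28 * Real.logb 2 n) :=
  bound hM hδ hδ2 hn hα hW pr P hS hm

end Pool.Agent.Results.MP_885423_lc.Communication
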