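import Mathlib
import Pool.Agent.H81.AP.Final

/-!
# The linear decision tree complexity of all pairs shortest paths, for every digraph

Definitions (`Pool/Agent/H81/AP/Defs.lean`, `Dim.lean`): `value a x = ∑ i j, a i j * x i j` for an integer
form `a` in the weights `x i j`; `Tree n α`: a tree whose inner nodes test the sign of such a form (three
branches: negative, zero, positive) and whose leaves carry answers in `α`; `Tree.run`, `Tree.depth`,
`Tree.tests`: the answer, the largest number of tests on a branch, the forms at the nodes;
`IsWalk G i j l`: `l` is the list of the arcs of a walk from `i` to `j` in the digraph `G`; `len x l`: the sum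
of the weights of the arcs in `l`; `PairTest G a`: the form `a` is `len u + len v - (len w + len z)` for
some walks `u`, `v`, `w`, `z` in `G` (possibly of length zero); `Answer G x o`: either `o = some R` and
for all `i`, `j` the entry `R i j` is a walk of the least length from `i` to `j`, or `none` if there is no
walk from `i` to `j`; or `o = none` and there is a closed walk of negative length; `dim G`: the
dimension of the real vector space spanned by the differences `cnt u - cnt v` of the arc counts of two
walks `u`, `v` in `G` with the same ends.

For every digraph `G` on `n ≥ 2` vertices:
1. there is one tree of depth at most `200000 * dim G * (log₂ n)³` with the right answer for all real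
   weights, and every test of this tree compares the total lengths of two pairs of walks;
2. every tree (with arbitrary integer forms as tests) with the right answer for all real weights has depth
   at least `dim G`;
3. if `G` is strongly connected then `dim G = m - n + 1` where `m` is the number of arcs.

Proof of 1: repeated squaring. In stage `k` the candidates are walks with at most `2^(k+1)` arcs, and only
candidates with the same ends are compared. So all forms lie in a space of dimension `dim G`, and `dim G`
of the coordinates (arcs) determine the vectors of this space; in these coordinates the forms are integer
vectors of norm at most `2^(k+2)`, and the pigeonhole argument of inference gives samples of size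
`O (dim G * (k + 1))`. Proof of 2: if the tests on the branch of `x = 0` vanish at `d` then the answer is right
for all weights `t * d`, so `d` gives the same length to all walks with the same ends.
-/

set_option autoImplicit false

namespace Pool.Agent.Results.MP_885423_lc.EveryDigraph

open Pool.Agent.H81.AP

/-- The depth of linear decision trees for all pairs shortest paths on a digraph `G` is at least
`dim G` and at most `200000 * dim G * (log₂ n)³`; `dim G = m - n + 1` if `G` is strongly connected. -/
theorem result (n : ℕ) (hn : 2 ≤ n) (G : Fin n → Fin n → Prop) :
    (∃ t : Tree n (Option (Mat n)), (t.depth : ℝ) ≤ 200000 * dim G * Real.logb 2 n ^ 3 ∧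
      (∀ a ∈ t.tests, PairTest G a) ∧
      ∀ x : Fin n → Fin n → ℝ, Answer G x (t.run x)) ∧
    (∀ t : Tree n (Option (Mat n)), (∀ x : Fin n → Fin n → ℝ, Answer G x (t.run x)) →
      dim G ≤ t.depth) ∧
    ((∀ i j, ∃ l, IsWalk G i j l) →
      dim G + n = {e : Fin n × Fin n | G e.1 e.2}.ncard + 1) :=
  ⟨tree_dim hn G, fun t ht => dim_le_depth t ht, fun h => dim_strong (by omega) h⟩

end Pool.Agent.Results.MP_885423_lc.EveryDigraph
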