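import Mathlib
import Pool.Agent.H81.AP.Verify

/-!
# Certificates for all pairs shortest paths: `O(n²)`, and between `dim G` and `O(dim G * log n)`

Definitions (`Pool/Agent/H81/AP/Defs.lean`, `Dim.lean`): `value a x = ∑ i j, a i j * x i j` for an integer
form `a` in the `n²` weights `x i j`; `IsWalk G i j l`: `l` is the list of the arcs of a walk from `i` to `j`
in the digraph `G`; `len x l`: the sum of the weights of the arcs in `l`; `Answer G x o`: either
`o = some R` and for all `i`, `j` the entry `R i j` is a walk of the least length from `i` to `j`, or `none`
if there is no walk from `i` to `j`; or `o = none` and there is a closed walk of negative length;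
`Agree L x y`: the forms in `L` have the same signs at `x` and `y`; `PairTest G a`: the form `a` is
`len u + len v - (len w + len z)` for some walks `u`, `v`, `w`, `z` in `G` (possibly of length zero);
`dim G`: the dimension of the real vector space spanned by the differences `cnt u - cnt v` of the arc
counts of two walks `u`, `v` in `G` with the same ends.

Part 1: for every digraph on `n ≥ 2` vertices and all real weights `x` there are at most `1368 n²`, and
also at most `54 * dim G * log₂ n`, forms whose signs at `x` prove that an answer is right: it is right for
all weights with the same signs; each of these signs is the result of a comparison of the total lengths of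
two pairs of walks. (There are about `n³` triangle inequalities.)
Part 2: for all weights without closed walks of negative length at least `dim G` forms are necessary,
whatever integer forms are used. Part 3: `dim G = m - n + 1` if `G` is strongly connected with `m` arcs. So
for the complete digraph at least `(n - 1)²` forms are necessary.
-/

set_option autoImplicit false

namespace Pool.Agent.Results.MP_885423_lc.LinearCertificates

open Pool.Agent.H81.AP

/-- 1. Certificates with at most `min (1368 n²) (54 * dim G * log₂ n)` comparisons of two pairs of walks.
2. Every certificate for weights without negative closed walks has at least `dim G` forms.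
3. `dim G = m - n + 1` if `G` is strongly connected. -/
theorem result (n : ℕ) (hn : 2 ≤ n) (G : Fin n → Fin n → Prop) :
    (∀ x : Fin n → Fin n → ℝ,
      ∃ (L : Finset (Fin n → Fin n → ℤ)) (o : Option (Mat n)),
        (L.card : ℝ) ≤ min (1368 * (n : ℝ) ^ 2) (54 * dim G * Real.logb 2 n) ∧
        (∀ a ∈ L, PairTest G a) ∧ ∀ y, Agree L x y → Answer G y o) ∧
    (∀ x : Fin n → Fin n → ℝ, (∀ i l, IsWalk G i i l → 0 ≤ len x l) →
      ∀ (L : Finset (Fin n → Fin n → ℤ)) (o : Option (Mat n)),
        (∀ y, Agree L x y → Answer G y o) → dim G ≤ L.card) ∧
    ((∀ i j, ∃ l, IsWalk G i j l) →
      dim G + n = {e : Fin n × Fin n | G e.1 e.2}.ncard + 1) := by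
  refine ⟨fun x => ?_, fun x hx L o h => dim_le_cert x hx L o h, fun h => dim_strong (by omega) h⟩
  rcases le_total (1368 * (n : ℝ) ^ 2) (54 * dim G * Real.logb 2 n) with h | h
  · rw [min_eq_left h]
    obtain ⟨L, o, h1, h2⟩ := apsp_cert (n := n) (by omega) G x
    exact ⟨L, o, by exact_mod_cast h1, h2⟩
  · rw [min_eq_right h]
    exact cert_dim hn G x

end Pool.Agent.Results.MP_885423_lc.LinearCertificates
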