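import Mathlib
import Pool.Agent.H81.AP.Trees

/-!
# All pairs shortest paths with `O(n² log n)` comparisons of the total lengths of two pairs of walks

Definitions (`Pool/Agent/H81/AP/Defs.lean`): `value a x = ∑ i j, a i j * x i j` for an integer form `a`
in the `n²` weights `x i j`; `Tree n α`: a tree whose inner nodes test the sign of such a form (three
branches: negative, zero, positive) and whose leaves carry answers in `α`; `Tree.run`, `Tree.depth`,
`Tree.tests`: the answer, the largest number of tests on a branch, the forms at the nodes;
`IsWalk G i j l`: `l` is the list of the arcs of a walk from `i` to `j` in the digraph `G`; `len x l`: the sum
of the weights of the arcs in `l`; `PairTest G a`: the form `a` is `len u + len v - (len w + len z)` for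
some walks `u`, `v`, `w`, `z` in `G` (possibly of length zero);
`Answer G x o`: either `o = some R` and for all `i`, `j` the entry `R i j` is a walk of the least length
from `i` to `j`, or `none` if there is no walk from `i` to `j`; or `o = none` and there is a
closed walk of negative length.

For every digraph `G` on `n ≥ 2` vertices there is one tree of depth at most `400000 n² log₂ n` with
the right answer for all real weights, negative ones included, and every test of this tree compares the total
lengths of two pairs of walks. (If only the lengths of two paths may be compared then about `n³`
comparisons are necessary: Karger, Koller and Phillips 1993.)

Proof: the recursion for the closure of a matrix in two blocks reduces the problem of size `2^(k+1)` to two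
problems of size `2^k` and six min-plus products of size `2^k`. For a product of size `s` the
candidates for an entry are compared through the `O(s⁴)` differences of two candidates, integer forms
of norm at most `4` in the `3 s²` lengths of the entries. Every set of these forms contains `O(s²)` forms
whose comparisons with each other give the signs of all forms of the set (pigeonhole on sums of
differences of neighbours), so a sample of `O(s²)` forms, sorted with the help of the number of cells
`exp (O (s² log s))`, gives most of the signs; the sorting costs `O(s²)` comparisons per round plus `O(s² log s)`
in total, and there are `O(log s)` rounds.
-/

set_option autoImplicit false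

namespace Pool.Agent.Results.MP_885423_lc.LinearDecisionTrees

open Pool.Agent.H81.AP

/-- Shortest walks for all pairs of vertices by linear decision trees of depth `O(n² log n)` whose tests
compare the total lengths of two pairs of walks. -/
theorem result (n : ℕ) (hn : 2 ≤ n) (G : Fin n → Fin n → Prop) :
    ∃ t : Tree n (Option (Mat n)), (t.depth : ℝ) ≤ 400000 * n ^ 2 * Real.logb 2 n ∧
      (∀ a ∈ t.tests, PairTest G a) ∧
      ∀ x : Fin n → Fin n → ℝ, Answer G x (t.run x) :=
  apsp_tree hn G

end Pool.Agent.Results.MP_885423_lc.LinearDecisionTrees
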